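import Mathlib
import Pool.Agent.R471.Pratt

/-!
# The least prime with digit sum `86` is `6999999989`

This refutes the assertions (b) and (c) of De Koninck's problem on the least prime with given
digit sum: `86 > 59 > 38`, but `6999999989` ends in the digits `989`.
-/

namespace Pool.Agent.Results.MP_70678e_nt.LeastPrimeDigitSum86

lemma step (m : ℕ) : ∃ d m' : ℕ, d ≤ 9 ∧ m = d + 10 * m' ∧
    (Nat.digits 10 m).sum = d + (Nat.digits 10 m').sum := by
  refine ⟨m % 10, m / 10, by omega, by omega, ?_⟩
  rcases Nat.eq_zero_or_pos m with rfl | hn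
  · simp
  · rw [Nat.digits_def' (by norm_num) hn, List.sum_cons]

lemma prime_main : Nat.Prime 6999999989 := by
  refine Pool.Agent.R471.pratt' 6999999989 2 33 [2, 2, 19, 373, 246931] ?_ (by decide +kernel)
  intro q hq
  simp only [List.mem_cons, List.not_mem_nil, or_false] at hq
  rcases hq with rfl | rfl | rfl | rfl | rfl <;> norm_num

lemma not_prime_aux (n a b : ℕ) (ha : a ≠ 1) (hb : b ≠ 1) (h : n = a * b) : ¬ n.Prime := by
  subst h
  exact Nat.not_prime_mul ha hb

/-- The least prime whose decimal digits sum to `86` is `6999999989`.  In particular (assertion (b))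
it is not true that for every `k > 38` the least prime with digit sum `k`, when it exists, is
`≡ 99 (mod 100)`, and (assertion (c)) it is not true that for every `k > 59` the least prime with
digit sum `k`, when it exists, is `≡ 999 (mod 1000)`. -/
theorem result :
    IsLeast {p : ℕ | p.Prime ∧ (Nat.digits 10 p).sum = 86} 6999999989 ∧
    (¬ ∀ k : ℕ, 38 < k → ∀ p : ℕ, IsLeast {q : ℕ | q.Prime ∧ (Nat.digits 10 q).sum = k} p →
      p % 100 = 99) ∧
    (¬ ∀ k : ℕ, 59 < k → ∀ p : ℕ, IsLeast {q : ℕ | q.Prime ∧ (Nat.digits 10 q).sum = k} p →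
      p % 1000 = 999) := by
  have hl : IsLeast {p : ℕ | p.Prime ∧ (Nat.digits 10 p).sum = 86} 6999999989 := by
    refine ⟨⟨prime_main, by norm_num⟩, ?_⟩
    rintro q ⟨hq, hs⟩
    by_contra hlt
    have hlt' : q < 6999999989 := not_le.1 hlt
    obtain ⟨d0, m0, h0, e0, s0⟩ := step q
    obtain ⟨d1, m1, h1, e1, s1⟩ := step m0
    obtain ⟨d2, m2, h2, e2, s2⟩ := step m1
    obtain ⟨d3, m3, h3, e3, s3⟩ := step m2
    obtain ⟨d4, m4, h4, e4, s4⟩ := step m3
    obtain ⟨d5, m5, h5, e5, s5⟩ := step m4
    obtain ⟨d6, m6, h6, e6, s6⟩ := step m5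
    obtain ⟨d7, m7, h7, e7, s7⟩ := step m6
    obtain ⟨d8, m8, h8, e8, s8⟩ := step m7
    obtain ⟨d9, m9, h9, e9, s9⟩ := step m8
    have a0 : m0 ≤ 699999998 := by omega
    have a1 : m1 ≤ 69999999 := by omega
    have a2 : m2 ≤ 6999999 := by omega
    have a3 : m3 ≤ 699999 := by omega
    have a4 : m4 ≤ 69999 := by omega
    have a5 : m5 ≤ 6999 := by omega
    have a6 : m6 ≤ 699 := by omega
    have a7 : m7 ≤ 69 := by omega
    have a8 : m8 ≤ 6 := by omega
    have a9 : m9 = 0 := by omega
    subst a9
    have sz : (Nat.digits 10 0).sum = 0 := by simp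
    have s : d0 + d1 + d2 + d3 + d4 + d5 + d6 + d7 + d8 + d9 = 86 := by
      rw [s0, s1, s2, s3, s4, s5, s6, s7, s8, s9, sz] at hs
      omega
    clear s0 s1 s2 s3 s4 s5 s6 s7 s8 s9 hs sz
    have e : q = d0 + 10 * d1 + 100 * d2 + 1000 * d3 + 10000 * d4 + 100000 * d5 + 1000000 * d6 +
        10000000 * d7 + 100000000 * d8 + 1000000000 * d9 := by
      rw [e0, e1, e2, e3, e4, e5, e6, e7, e8, e9]
      ring
    clear e0 e1 e2 e3 e4 e5 e6 e7 e8 a0 a1 a2 a3 a4 a5 a6 a7
    have b9 : d9 = 5 ∨ d9 = 6 := by omega
    clear a8 e9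
    rcases b9 with rfl | rfl
    · have c0 : d0 = 9 := by omega
      have c1 : d1 = 9 := by omega
      have c2 : d2 = 9 := by omega
      have c3 : d3 = 9 := by omega
      have c4 : d4 = 9 := by omega
      have c5 : d5 = 9 := by omega
      have c6 : d6 = 9 := by omega
      have c7 : d7 = 9 := by omega
      have c8 : d8 = 9 := by omega
      subst c0 c1 c2 c3 c4 c5 c6 c7 c8
      exact not_prime_aux q 7 857142857 (by norm_num) (by norm_num) (by rw [e]) hq
    · rcases (by omega : d8 = 8 ∨ d8 = 9) with rfl | rfl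
      · have c0 : d0 = 9 := by omega
        have c1 : d1 = 9 := by omega
        have c2 : d2 = 9 := by omega
        have c3 : d3 = 9 := by omega
        have c4 : d4 = 9 := by omega
        have c5 : d5 = 9 := by omega
        have c6 : d6 = 9 := by omega
        have c7 : d7 = 9 := by omega
        subst c0 c1 c2 c3 c4 c5 c6 c7
        exact not_prime_aux q 6089 1133191 (by norm_num) (by norm_num) (by rw [e]) hq
      rcases (by omega : d7 = 8 ∨ d7 = 9) with rfl | rfl
      · have c0 : d0 = 9 := by omega
        have c1 : d1 = 9 := by omega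
        have c2 : d2 = 9 := by omega
        have c3 : d3 = 9 := by omega
        have c4 : d4 = 9 := by omega
        have c5 : d5 = 9 := by omega
        have c6 : d6 = 9 := by omega
        subst c0 c1 c2 c3 c4 c5 c6
        exact not_prime_aux q 827 8452237 (by norm_num) (by norm_num) (by rw [e]) hq
      rcases (by omega : d6 = 8 ∨ d6 = 9) with rfl | rfl
      · have c0 : d0 = 9 := by omega
        have c1 : d1 = 9 := by omega
        have c2 : d2 = 9 := by omega
        have c3 : d3 = 9 := by omega
        have c4 : d4 = 9 := by omega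
        have c5 : d5 = 9 := by omega
        subst c0 c1 c2 c3 c4 c5
        exact not_prime_aux q 19 368368421 (by norm_num) (by norm_num) (by rw [e]) hq
      rcases (by omega : d5 = 8 ∨ d5 = 9) with rfl | rfl
      · have c0 : d0 = 9 := by omega
        have c1 : d1 = 9 := by omega
        have c2 : d2 = 9 := by omega
        have c3 : d3 = 9 := by omega
        have c4 : d4 = 9 := by omega
        subst c0 c1 c2 c3 c4
        exact not_prime_aux q 61 114752459 (by norm_num) (by norm_num) (by rw [e]) hq
      rcases (by omega : d4 = 8 ∨ d4 = 9) with rfl | rfl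
      · have c0 : d0 = 9 := by omega
        have c1 : d1 = 9 := by omega
        have c2 : d2 = 9 := by omega
        have c3 : d3 = 9 := by omega
        subst c0 c1 c2 c3
        exact not_prime_aux q 31 225806129 (by norm_num) (by norm_num) (by rw [e]) hq
      rcases (by omega : d3 = 8 ∨ d3 = 9) with rfl | rfl
      · have c0 : d0 = 9 := by omega
        have c1 : d1 = 9 := by omega
        have c2 : d2 = 9 := by omega
        subst c0 c1 c2
        exact not_prime_aux q 7 999999857 (by norm_num) (by norm_num) (by rw [e]) hq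
      rcases (by omega : d2 = 8 ∨ d2 = 9) with rfl | rfl
      · have c0 : d0 = 9 := by omega
        have c1 : d1 = 9 := by omega
        subst c0 c1
        exact not_prime_aux q 3011 2324809 (by norm_num) (by norm_num) (by rw [e]) hq
      · omega
  refine ⟨hl, fun h => ?_, fun h => ?_⟩
  · have := h 86 (by norm_num) _ hl
    norm_num at this
  · have := h 86 (by norm_num) _ hl
    norm_num at this

end Pool.Agent.Results.MP_70678e_nt.LeastPrimeDigitSum86
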